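import Pool.Agent.H180.RS.Stmts
import Pool.Agent.Y168.FK.Leg

/-!
# Rational points on three families of conics
-/

set_option autoImplicit false

namespace Pool.Agent.Q169.RS

open Pool.Agent.H180.RS

/-- a square dividing a squarefree multiple of a square -/
lemma sq_dvd {n g w : ℤ} (hn : Squarefree n) (hw : w ≠ 0) (h : g ^ 2 ∣ n * w ^ 2) : g ∣ w := by
  have hd : (Int.gcd g w : ℤ) ≠ 0 := by
    intro h0
    have h1 : Int.gcd g w = 0 := by exact_mod_cast h0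
    rw [Int.gcd_eq_zero_iff] at h1
    exact hw h1.2
  obtain ⟨g', hg'⟩ := Int.gcd_dvd_left g w
  obtain ⟨w', hw'⟩ := Int.gcd_dvd_right g w
  set d : ℤ := (Int.gcd g w : ℤ) with hdd
  have hcop : IsCoprime g' w' := by
    rw [Int.isCoprime_iff_gcd_eq_one]
    have h1 : Int.gcd (d * g') (d * w') = d.natAbs * Int.gcd g' w' := Int.gcd_mul_left _ _ _
    rw [← hg', ← hw'] at h1
    have h2 : d.natAbs = Int.gcd g w := by rw [hdd]; simp
    have h3 : Int.gcd g w ≠ 0 := by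
      intro h0; apply hd; rw [hdd]; exact_mod_cast h0
    rw [h2] at h1
    have h4 : Int.gcd g w * 1 = Int.gcd g w * Int.gcd g' w' := by rw [mul_one]; exact h1
    exact (Nat.eq_of_mul_eq_mul_left (Nat.pos_of_ne_zero h3) h4).symm
  have h5 : g' ^ 2 ∣ n * w' ^ 2 := by
    rw [hg', hw'] at h
    obtain ⟨k, hk⟩ := h
    refine ⟨k, ?_⟩
    have : d ^ 2 * (n * w' ^ 2) = d ^ 2 * (g' ^ 2 * k) := by linear_combination hk
    exact mul_left_cancel₀ (pow_ne_zero 2 hd) this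
  have h6 : g' ^ 2 ∣ n := by
    have : IsCoprime (g' ^ 2) (w' ^ 2) := hcop.pow
    exact this.dvd_of_dvd_mul_right h5
  have h7 : IsUnit g' := hn g' (by rw [← pow_two]; exact h6)
  rw [hg', hw']
  exact mul_dvd_mul_left d (h7.dvd)

/-- passing to coprime solutions -/
lemma prim {A n u v w : ℤ} (hn : Squarefree n) (hn0 : n ≠ 0) (hw : w ≠ 0)
    (h : u ^ 2 - A * v ^ 2 = n * w ^ 2) :
    ∃ u v w : ℤ, IsCoprime u v ∧ w ≠ 0 ∧ u ^ 2 - A * v ^ 2 = n * w ^ 2 := by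
  have hd : (Int.gcd u v : ℤ) ≠ 0 := by
    intro h0
    have h1 : Int.gcd u v = 0 := by exact_mod_cast h0
    rw [Int.gcd_eq_zero_iff] at h1
    rw [h1.1, h1.2] at h
    have : n * w ^ 2 = 0 := by linarith
    rcases mul_eq_zero.1 this with h2 | h2
    · exact hn0 h2
    · exact hw (pow_eq_zero_iff (two_ne_zero) |>.1 h2)
  obtain ⟨u', hu'⟩ := Int.gcd_dvd_left u v
  obtain ⟨v', hv'⟩ := Int.gcd_dvd_right u v
  set d : ℤ := (Int.gcd u v : ℤ) with hdd
  have hcop : IsCoprime u' v' := by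
    rw [Int.isCoprime_iff_gcd_eq_one]
    have h1 : Int.gcd (d * u') (d * v') = d.natAbs * Int.gcd u' v' := Int.gcd_mul_left _ _ _
    rw [← hu', ← hv'] at h1
    have h2 : d.natAbs = Int.gcd u v := by rw [hdd]; simp
    have h3 : Int.gcd u v ≠ 0 := by
      intro h0; apply hd; rw [hdd]; exact_mod_cast h0
    rw [h2] at h1
    have h4 : Int.gcd u v * 1 = Int.gcd u v * Int.gcd u' v' := by rw [mul_one]; exact h1
    exact (Nat.eq_of_mul_eq_mul_left (Nat.pos_of_ne_zero h3) h4).symm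
  have hdw : d ∣ w := by
    apply sq_dvd hn hw
    refine ⟨u' ^ 2 - A * v' ^ 2, ?_⟩
    rw [← h]
    conv_lhs => rw [hu', hv']
    ring
  obtain ⟨w', hw'⟩ := hdw
  refine ⟨u', v', w', hcop, ?_, ?_⟩
  · rintro rfl; apply hw; rw [hw', mul_zero]
  · have : d ^ 2 * (u' ^ 2 - A * v' ^ 2) = d ^ 2 * (n * w' ^ 2) := by
      have h8 := h
      rw [hw'] at h8
      conv_lhs at h8 => rw [hu', hv']
      linear_combination h8
    exact mul_left_cancel₀ (pow_ne_zero 2 hd) this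

/-- a prime times something prime to it is not a square -/
lemma nsq {p : ℕ} (hp : p.Prime) {a x : ℤ} (ha : ¬ (p : ℤ) ∣ a) : x ^ 2 ≠ p * a := by
  intro h
  have hpi : Prime (p : ℤ) := Nat.prime_iff_prime_int.1 hp
  have h1 : (p : ℤ) ∣ x := hpi.dvd_of_dvd_pow (⟨a, h⟩ : (p : ℤ) ∣ x ^ 2)
  obtain ⟨y, rfl⟩ := h1
  apply ha
  have hp0 : (p : ℤ) ≠ 0 := hpi.ne_zero
  refine ⟨y ^ 2, ?_⟩
  have : (p : ℤ) * a = p * (p * y ^ 2) := by rw [← h]; ring
  exact mul_left_cancel₀ hp0 this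

lemma nsq1 {p : ℕ} (hp : p.Prime) {x : ℤ} : x ^ 2 ≠ p := by
  have := nsq hp (a := 1) (x := x) (by
    intro h
    have h1 : (p : ℤ) ∣ ((1 : ℕ) : ℤ) := by simpa using h
    exact hp.one_lt.ne' (Nat.dvd_one.1 (Int.natCast_dvd_natCast.1 h1)))
  simpa using this

/-- a squarefree integer which is a rational square is one -/
lemma sqf_sq {A x : ℤ} (hA : Squarefree A) (h : x ^ 2 = A) : A = 1 := by
  have h1 : IsUnit x := hA x ⟨1, by rw [mul_one, ← h, pow_two]⟩
  rcases Int.isUnit_iff.1 h1 with rfl | rfl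
  · rw [← h]; norm_num
  · rw [← h]; norm_num

lemma sqf_sq' {A z x : ℤ} (hA : Squarefree A) (hx : z ≠ 0) (h : z ^ 2 = A * x ^ 2) : A = 1 := by
  have hx0 : x ≠ 0 := by
    rintro rfl; apply hx
    have : z ^ 2 = 0 := by rw [h]; ring
    exact pow_eq_zero_iff two_ne_zero |>.1 this
  have h1 : x ∣ z := by
    have : x ^ 2 ∣ z ^ 2 := ⟨A, by rw [h]; ring⟩
    exact (Int.pow_dvd_pow_iff two_ne_zero).1 this
  obtain ⟨y, rfl⟩ := h1
  apply sqf_sq hA (x := y)
  have : x ^ 2 * y ^ 2 = x ^ 2 * A := by linear_combination h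
  exact mul_left_cancel₀ (pow_ne_zero 2 hx0) this

/-- squares modulo a prime -/
lemma sqmod {p : ℕ} {a : ℤ} (h : IsSquare ((a : ℤ) : ZMod p)) : ∃ s : ℤ, (p : ℤ) ∣ s ^ 2 - a := by
  obtain ⟨s, hs⟩ := h
  obtain ⟨t, rfl⟩ := ZMod.intCast_surjective s
  refine ⟨t, ?_⟩
  rw [← ZMod.intCast_zmod_eq_zero_iff_dvd (t ^ 2 - a) p]
  push_cast
  rw [hs]; ring

lemma neg_one_sq {q : ℕ} (hq : q.Prime) (h4 : q % 4 = 1) : IsSquare (-1 : ZMod q) := by
  have : Fact q.Prime := ⟨hq⟩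
  rw [ZMod.exists_sq_eq_neg_one_iff]; omega

lemma recip {p q : ℕ} (hp : p.Prime) (hq : q.Prime) (hp2 : p ≠ 2) (h4 : q % 4 = 1) :
    IsSquare ((q : ℕ) : ZMod p) ↔ IsSquare ((p : ℕ) : ZMod q) := by
  have : Fact q.Prime := ⟨hq⟩
  have : Fact p.Prime := ⟨hp⟩
  exact (ZMod.exists_sq_eq_prime_iff_of_mod_four_eq_one (p := q) (q := p) h4 hp2).symm

lemma mulsq {r : ℕ} (hr : r.Prime) {a b : ZMod r} (ha : ¬ IsSquare a) (hb : ¬ IsSquare b) :
    IsSquare (a * b) := by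
  have : Fact r.Prime := ⟨hr⟩
  have ha0 : a ≠ 0 := by rintro rfl; exact ha (IsSquare.zero)
  have hb0 : b ≠ 0 := by rintro rfl; exact hb (IsSquare.zero)
  have h2 : ringChar (ZMod r) ≠ 2 := by
    intro h
    exact ha (FiniteField.isSquare_of_char_two h a)
  have h1 := quadraticChar_neg_one_iff_not_isSquare.2 ha
  have h3 := quadraticChar_neg_one_iff_not_isSquare.2 hb
  rw [← quadraticChar_one_iff_isSquare (mul_ne_zero ha0 hb0), map_mul, h1, h3]
  norm_num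

lemma not_dvd_prime {p q : ℕ} (hp : p.Prime) (hq : q.Prime) (h : p ≠ q) : ¬ (p : ℤ) ∣ (q : ℤ) := by
  intro h1
  exact h ((Nat.prime_dvd_prime_iff_eq hp hq).1 (Int.natCast_dvd_natCast.1 h1))

lemma one_ {A : ℤ} {ℓ : ℕ} (hl : ℓ.Prime) (h4 : A % 4 = 1) (hsq : Squarefree A) (h1 : A ≠ 1)
    (hd : (4 * A) ∣ (ℓ : ℤ) - 1) :
    ∃ u v w : ℤ, IsCoprime u v ∧ w ≠ 0 ∧ u ^ 2 - A * v ^ 2 = ℓ * w ^ 2 := by
  have : Fact ℓ.Prime := ⟨hl⟩
  have hlp : Prime (ℓ : ℤ) := Nat.prime_iff_prime_int.1 hl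
  have hA0 : A ≠ 0 := by rintro rfl; norm_num at h4
  have hdA : A ∣ (ℓ : ℤ) - 1 := (Dvd.intro_left 4 rfl).trans hd
  have hl4 : ℓ % 4 = 1 := by
    have h2 : (4 : ℤ) ∣ (ℓ : ℤ) - 1 := (Dvd.intro A rfl).trans hd
    omega
  have hlA : ¬ (ℓ : ℤ) ∣ A := by
    intro h
    have h2 : (ℓ : ℤ) ∣ (ℓ : ℤ) - 1 := h.trans hdA
    have h3 : (ℓ : ℤ) ∣ 1 := by
      have := dvd_sub (dvd_refl (ℓ : ℤ)) h2
      simpa using this
    exact hlp.not_isUnit (isUnit_of_dvd_one h3)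
  have hodd : Odd A.natAbs := by
    rw [Int.natAbs_odd, Int.odd_iff]; omega
  -- the Jacobi symbols
  have hj : jacobiSym (A.natAbs : ℤ) ℓ = 1 := by
    rw [jacobiSym.quadratic_reciprocity_one_mod_four' hodd hl4]
    have h5 : jacobiSym (ℓ : ℤ) A.natAbs = jacobiSym 1 A.natAbs := by
      apply jacobiSym.mod_left'
      apply Int.ModEq.symm
      rw [Int.modEq_iff_dvd, Int.natAbs_dvd]
      exact hdA
    rw [h5, jacobiSym.one_left]
  have hne : ((A.natAbs : ℤ) : ZMod ℓ) ≠ 0 := by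
    rw [Ne, ZMod.intCast_zmod_eq_zero_iff_dvd, Int.dvd_natAbs]
    exact hlA
  have hsqa : IsSquare ((A.natAbs : ℤ) : ZMod ℓ) := by
    rw [← jacobiSym.legendreSym.to_jacobiSym] at hj
    exact (legendreSym.eq_one_iff ℓ hne).1 hj
  have hsqA : IsSquare ((A : ℤ) : ZMod ℓ) := by
    rcases le_total 0 A with h | h
    · rwa [Int.natAbs_of_nonneg h] at hsqa
    · have h6 : ((A.natAbs : ℤ)) = - A := by omega
      have h7 : ((A : ℤ) : ZMod ℓ) = (-1) * ((A.natAbs : ℤ) : ZMod ℓ) := by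
        rw [h6]; push_cast; ring
      rw [h7]
      exact (neg_one_sq hl hl4).mul hsqa
  obtain ⟨s, hs⟩ := sqmod hsqA
  have hna : A.natAbs ≠ 0 := Int.natAbs_ne_zero.2 hA0
  have hcop : Nat.Coprime ℓ A.natAbs := by
    rw [Nat.Prime.coprime_iff_not_dvd hl]
    intro h
    apply hlA
    rw [← Int.dvd_natAbs]
    exact_mod_cast h
  have hAsq : Squarefree ((A.natAbs : ℕ) : ℤ) := by
    rw [Int.squarefree_natCast, Int.squarefree_natAbs]
    exact hsq
  have hAn1 : ((A.natAbs : ℕ) : ℤ) ≠ 1 := by omega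
  rcases lt_or_gt_of_ne hA0 with hneg | hpos
  · -- A < 0
    have habs : ((A.natAbs : ℕ) : ℤ) = - A := by omega
    obtain ⟨x, y, z, hz, he⟩ := Pool.Agent.Y168.FK.legendre (r := ℓ) (b := 1) (c := A.natAbs)
      hl.pos one_pos (Nat.pos_of_ne_zero hna) (Nat.coprime_one_right _) hcop
      (Nat.coprime_one_left _)
      ⟨s, by rw [habs]; push_cast; convert hs using 1; ring⟩ ⟨0, by simp⟩
      ⟨1, by
        rw [Int.natAbs_dvd]
        obtain ⟨k, hk⟩ := hdA
        exact ⟨-k, by push_cast; linear_combination -hk⟩⟩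
      (fun x => nsq hl (by rw [Int.dvd_natAbs]; exact hlA))
      (fun x => by simpa using nsq1 hl (x := x))
      (fun x hx => hAn1 (sqf_sq hAsq (x := x) (by simpa using hx)))
    apply prim (hlp.squarefree) hlp.ne_zero hz (u := x) (v := y)
    rw [habs] at he
    push_cast at he
    linear_combination he
  · have habs : ((A.natAbs : ℕ) : ℤ) = A := by omega
    obtain ⟨x, y, z, hz, he⟩ := Pool.Agent.Y168.FK.legendre (r := 1) (b := A.natAbs) (c := ℓ)
      one_pos (Nat.pos_of_ne_zero hna) hl.pos (Nat.coprime_one_left _) (Nat.coprime_one_left _)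
      hcop.symm ⟨0, by simp⟩
      ⟨1, by
        rw [Int.natAbs_dvd]
        obtain ⟨k, hk⟩ := hdA
        exact ⟨-k, by push_cast; linear_combination -hk⟩⟩
      ⟨s, by rw [habs]; push_cast; convert hs using 1; ring⟩
      (fun x => by simpa using nsq1 hl (x := x))
      (fun x hx => hAn1 (sqf_sq hAsq (x := x) (by simpa using hx)))
      (fun x => by rw [mul_comm]; exact nsq hl (by rw [Int.dvd_natAbs]; exact hlA))
    rw [habs] at he
    push_cast at he
    have hy : y ≠ 0 := by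
      rintro rfl
      exact h1 (sqf_sq' hsq hz (x := x) (by linear_combination -he))
    apply prim (hlp.squarefree) hlp.ne_zero hy (u := z) (v := x)
    linear_combination -he

lemma two_ {p q : ℕ} (hp : p.Prime) (hq : q.Prime) (hp2 : p ≠ 2) (hpq : p ≠ q) (h4 : q % 4 = 1)
    (h : IsSquare ((p : ℕ) : ZMod q)) :
    ∃ x y z : ℤ, IsCoprime x y ∧ z ≠ 0 ∧ x ^ 2 - st p * y ^ 2 = q * z ^ 2 := by
  have : Fact q.Prime := ⟨hq⟩
  have : Fact p.Prime := ⟨hp⟩
  have hqp : Prime (q : ℤ) := Nat.prime_iff_prime_int.1 hq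
  have hpp : Prime (p : ℤ) := Nat.prime_iff_prime_int.1 hp
  have h' := (recip hp hq hp2 h4).2 h
  obtain ⟨s, hs⟩ := sqmod (p := q) (a := (p : ℤ)) (by simpa using h)
  obtain ⟨t, ht⟩ := sqmod (p := p) (a := (q : ℤ)) (by simpa using h')
  obtain ⟨s', hs'⟩ := sqmod (p := q) (a := -(p : ℤ)) (by
    have := (neg_one_sq hq h4).mul h
    simpa using this)
  by_cases hp4 : p % 4 = 1
  · obtain ⟨x, y, z, hz, he⟩ := Pool.Agent.Y168.FK.legendre (r := 1) (b := p) (c := q)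
      one_pos hp.pos hq.pos (Nat.coprime_one_left _) (Nat.coprime_one_left _)
      ((Nat.coprime_primes hp hq).2 hpq) ⟨0, by simp⟩
      ⟨t, by simpa using ht⟩ ⟨s, by simpa using hs⟩
      (fun x => by simpa using nsq1 hq (x := x))
      (fun x => by simpa using nsq1 hp (x := x))
      (fun x => nsq hp (not_dvd_prime hp hq hpq))
    push_cast at he
    have hy : y ≠ 0 := by
      rintro rfl
      have := sqf_sq' hpp.squarefree hz (x := x) (by linear_combination -he)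
      exact hp.one_lt.ne' (by exact_mod_cast this)
    apply prim hqp.squarefree hqp.ne_zero hy (u := z) (v := x)
    rw [st, if_pos hp4]
    linear_combination -he
  · obtain ⟨x, y, z, hz, he⟩ := Pool.Agent.Y168.FK.legendre (r := q) (b := 1) (c := p)
      hq.pos one_pos hp.pos (Nat.coprime_one_right _) ((Nat.coprime_primes hq hp).2 hpq.symm)
      (Nat.coprime_one_left _) ⟨s', by simpa using hs'⟩ ⟨0, by simp⟩ ⟨t, by simpa using ht⟩
      (fun x => nsq hq (not_dvd_prime hq hp hpq.symm))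
      (fun x => by simpa using nsq1 hq (x := x))
      (fun x => by simpa using nsq1 hp (x := x))
    push_cast at he
    apply prim hqp.squarefree hqp.ne_zero hz (u := x) (v := y)
    rw [st, if_neg hp4]
    linear_combination he

lemma sqf_two {q r : ℕ} (hq : q.Prime) (hr : r.Prime) (h : q ≠ r) :
    Squarefree ((q * r : ℕ) : ℤ) := by
  rw [Int.squarefree_natCast, Nat.squarefree_mul ((Nat.coprime_primes hq hr).2 h)]
  exact ⟨hq.squarefree, hr.squarefree⟩

lemma three_ {p q r : ℕ} (hp : p.Prime) (hq : q.Prime) (hr : r.Prime) (hp2 : p ≠ 2) (hpq : p ≠ q)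
    (hpr : p ≠ r) (hqr : q ≠ r) (hq4 : q % 4 = 1) (hr4 : r % 4 = 1)
    (h1 : ¬ IsSquare ((p : ℕ) : ZMod q)) (h2 : ¬ IsSquare ((p : ℕ) : ZMod r))
    (h3 : ¬ IsSquare ((q : ℕ) : ZMod r)) :
    ∃ x y z : ℤ, IsCoprime x y ∧ z ≠ 0 ∧ x ^ 2 - (st p * r) * y ^ 2 = (q * r : ℕ) * z ^ 2 := by
  have : Fact q.Prime := ⟨hq⟩
  have : Fact p.Prime := ⟨hp⟩
  have : Fact r.Prime := ⟨hr⟩
  have hrp : Prime (r : ℤ) := Nat.prime_iff_prime_int.1 hr
  have hqp : Prime (q : ℤ) := Nat.prime_iff_prime_int.1 hq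
  have hpp : Prime (p : ℤ) := Nat.prime_iff_prime_int.1 hp
  have hq2 : q ≠ 2 := by rintro rfl; norm_num at hq4
  have h1' : ¬ IsSquare ((q : ℕ) : ZMod p) := fun h => h1 ((recip hp hq hp2 hq4).1 h)
  have h2' : ¬ IsSquare ((r : ℕ) : ZMod p) := fun h => h2 ((recip hp hr hp2 hr4).1 h)
  have h3' : ¬ IsSquare ((r : ℕ) : ZMod q) := fun h => h3 ((recip hq hr hq2 hr4).1 h)
  have e1 : IsSquare (((p : ℕ) : ZMod r) * (q : ℕ)) := mulsq hr h2 h3
  have e2 : IsSquare (((r : ℕ) : ZMod p) * (q : ℕ)) := mulsq hp h2' h1'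
  have e3 : IsSquare (((r : ℕ) : ZMod q) * (p : ℕ)) := mulsq hq h3' h1
  obtain ⟨t, ht⟩ := sqmod (p := p) (a := (r : ℤ) * q) (by simpa using e2)
  by_cases hp4 : p % 4 = 1
  · obtain ⟨s, hs⟩ := sqmod (p := r) (a := -((p : ℤ) * q)) (by
      have := (neg_one_sq hr hr4).mul e1
      simpa using this)
    obtain ⟨w, hw⟩ := sqmod (p := q) (a := (r : ℤ) * p) (by simpa using e3)
    obtain ⟨x, y, z, hz, he⟩ := Pool.Agent.Y168.FK.legendre (r := r) (b := p) (c := q)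
      hr.pos hp.pos hq.pos ((Nat.coprime_primes hr hp).2 hpr.symm)
      ((Nat.coprime_primes hr hq).2 hqr.symm) ((Nat.coprime_primes hp hq).2 hpq)
      ⟨s, by simpa using hs⟩ ⟨t, ht⟩ ⟨w, hw⟩
      (fun x => nsq hr (not_dvd_prime hr hq hqr.symm))
      (fun x => nsq hr (not_dvd_prime hr hp hpr.symm))
      (fun x => nsq hp (not_dvd_prime hp hq hpq))
    have hy : y ≠ 0 := by
      rintro rfl
      have h5 : (r * z) ^ 2 = (r * p : ℕ) * x ^ 2 := by
        push_cast; linear_combination -(r : ℤ) * he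
      have := sqf_sq' (sqf_two hr hp hpr.symm) (mul_ne_zero hrp.ne_zero hz) h5
      have h6 : r * p = 1 := by exact_mod_cast this
      exact hr.one_lt.ne' (Nat.eq_one_of_mul_eq_one_right h6)
    apply prim (sqf_two hq hr hqr) (by exact_mod_cast (mul_ne_zero hq.ne_zero hr.ne_zero)) hy
      (u := r * z) (v := x)
    rw [st, if_pos hp4]
    push_cast
    linear_combination -(r : ℤ) * he
  · obtain ⟨s, hs⟩ := sqmod (p := q) (a := -((r : ℤ) * p)) (by
      have := (neg_one_sq hq hq4).mul e3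
      simpa using this)
    obtain ⟨w, hw⟩ := sqmod (p := r) (a := (q : ℤ) * p) (by
      rw [mul_comm]; simpa using e1)
    obtain ⟨x, y, z, hz, he⟩ := Pool.Agent.Y168.FK.legendre (r := q) (b := r) (c := p)
      hq.pos hr.pos hp.pos ((Nat.coprime_primes hq hr).2 hqr)
      ((Nat.coprime_primes hq hp).2 hpq.symm) ((Nat.coprime_primes hr hp).2 hpr.symm)
      ⟨s, by simpa using hs⟩ ⟨w, hw⟩ ⟨t, by rw [mul_comm (q : ℤ)]; exact ht⟩
      (fun x => nsq hq (not_dvd_prime hq hp hpq.symm))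
      (fun x => nsq hq (not_dvd_prime hq hr hqr))
      (fun x => nsq hr (not_dvd_prime hr hp hpr.symm))
    apply prim (sqf_two hq hr hqr) (by exact_mod_cast (mul_ne_zero hq.ne_zero hr.ne_zero)) hz
      (u := r * x) (v := y)
    rw [st, if_neg hp4]
    push_cast
    linear_combination (r : ℤ) * he

theorem con : PropCon :=
  ⟨fun _ _ hl h4 hsq h1 hd => one_ hl h4 hsq h1 hd,
    fun _ _ hp hq hp2 hpq h4 h => two_ hp hq hp2 hpq h4 h,
    fun _ _ _ hp hq hr hp2 hpq hpr hqr hq4 hr4 h1 h2 h3 =>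
      three_ hp hq hr hp2 hpq hpr hqr hq4 hr4 h1 h2 h3⟩

end Pool.Agent.Q169.RS
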