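import Pool.Agent.H180.RS.Stmts

/-!
# Existence of power residue symbols
-/

set_option autoImplicit false

namespace Pool.Agent.Q169.RS

open NumberField

lemma nonsing {F : Type} [Field F] [Fintype F] {m : ℕ} (h : m ∣ Fintype.card F - 1) :
    (m : F) ≠ 0 := by
  intro h0
  have h1 : ((Fintype.card F - 1 : ℕ) : F) = 0 := by
    obtain ⟨k, hk⟩ := h
    rw [hk]; push_cast; rw [h0, zero_mul]
  have h2 : (Fintype.card F : F) = 0 := FiniteField.cast_card_eq_zero F
  have h3 : 1 ≤ Fintype.card F := Fintype.card_pos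
  rw [Nat.cast_sub h3, h2] at h1
  simp at h1

theorem sym : Pool.Agent.H180.RS.PropSym := by
  intro K _ _ m ζ hζ hm σ F _ _ φ hφ hdvd
  classical
  have hm0 : (m : F) ≠ 0 := nonsing hdvd
  have : NeZero (m : F) := ⟨hm0⟩
  have : NeZero m := ⟨hm.ne'⟩
  -- the image of ζ is a primitive root
  have hω : IsPrimitiveRoot (φ ζ) m := by
    rw [← Polynomial.isRoot_cyclotomic_iff]
    have h1 : (Polynomial.cyclotomic m (𝓞 K)).IsRoot ζ := hζ.isRoot_cyclotomic hm
    have h2 := h1.map (f := φ)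
    rwa [Polynomial.map_cyclotomic] at h2
  have hσ : IsPrimitiveRoot (σ (ζ : K)) m := by
    have h1 : IsPrimitiveRoot (ζ : K) m :=
      hζ.map_of_injective (f := algebraMap (𝓞 K) K) (FaithfulSMul.algebraMap_injective (𝓞 K) K)
    exact h1.map_of_injective σ.injective
  obtain ⟨n, hn⟩ := hdvd
  have hcard : Fintype.card Fˣ = m * n := by rw [Fintype.card_units, hn]
  have hn0 : 0 < n := by
    rcases Nat.eq_zero_or_pos n with h | h
    · rw [h, mul_zero] at hcard
      exact absurd hcard (Fintype.card_pos).ne'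
    · exact h
  have hdiv : (Fintype.card F - 1) / m = n := by rw [hn, Nat.mul_div_cancel_left _ hm]
  obtain ⟨g, hg⟩ := IsCyclic.exists_generator (α := Fˣ)
  have hgo : orderOf g = m * n := by
    rw [orderOf_eq_card_of_forall_mem_zpowers hg, Nat.card_eq_fintype_card, hcard]
  have hgm : ((g : F) ^ n) ^ m = 1 := by
    rw [← pow_mul, mul_comm n m, ← hgo]
    have := pow_orderOf_eq_one g
    rw [← Units.val_pow_eq_pow_val, this, Units.val_one]
  obtain ⟨b, hb, hbe⟩ := hω.eq_pow_of_pow_eq_one hgm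
  -- the root of unity in ℂ
  have hμ0 : (σ (ζ : K)) ^ b ≠ 0 := pow_ne_zero _ (hσ.ne_zero hm.ne')
  let μ : ℂˣ := Units.mk0 ((σ (ζ : K)) ^ b) hμ0
  have hμ : μ ∈ rootsOfUnity (Fintype.card Fˣ) ℂ := by
    rw [mem_rootsOfUnity, hcard]
    ext
    simp only [Units.val_pow_eq_pow_val, Units.val_one, μ, Units.val_mk0]
    rw [← pow_mul, show b * (m * n) = m * (b * n) by ring, pow_mul, hσ.pow_eq_one, one_pow]
  have hχg : (MulChar.ofRootOfUnity hμ hg) g = (σ (ζ : K)) ^ b := by
    have := MulChar.ofRootOfUnity_spec hμ hg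
    simpa [μ] using this
  refine ⟨MulChar.ofRootOfUnity hμ hg, ?_, ?_⟩
  · -- order
    have key : ∀ j : ℕ, (MulChar.ofRootOfUnity hμ hg) ^ j = 1 ↔ m ∣ j := by
      intro j
      rw [MulChar.eq_iff hg, MulChar.pow_apply_coe, hχg, MulChar.one_apply_coe, ← pow_mul,
        hσ.pow_eq_one_iff_dvd, ← hω.pow_eq_one_iff_dvd, pow_mul, hbe, ← pow_mul,
        ← Units.val_pow_eq_pow_val, ← Units.val_one, Units.val_inj, ← orderOf_dvd_iff_pow_eq_one,
        hgo, mul_comm m n, Nat.mul_dvd_mul_iff_left hn0]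
    apply Nat.dvd_antisymm
    · rw [orderOf_dvd_iff_pow_eq_one, key]
    · rw [← key]; exact pow_orderOf_eq_one _
  · intro x hx
    have hmem : Units.mk0 (φ x) hx ∈ Submonoid.powers g := by
      rw [mem_powers_iff_mem_zpowers]; exact hg _
    obtain ⟨i, hi⟩ := hmem
    have hi' : (g : F) ^ i = φ x := by
      have := congrArg Units.val hi
      simpa using this
    refine ⟨ζ ^ (b * i), ?_, ?_, ?_⟩
    · rw [← pow_mul, show b * i * m = m * (b * i) by ring, pow_mul, hζ.pow_eq_one, one_pow]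
    · rw [map_pow, hdiv, pow_mul, hbe, ← hi', ← pow_mul, ← pow_mul, mul_comm]
    · rw [← hi', map_pow, hχg]
      rw [← pow_mul]
      push_cast
      rw [map_pow]

end Pool.Agent.Q169.RS
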